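import Pool.Agent.H25.NW.Obst

/-!
# The criterion
-/

set_option autoImplicit false

namespace Pool.Agent.H25.NW

open NumberField Polynomial Pool.Agent.H26.NL

noncomputable section

section sums

variable {d : ℕ} [hd : Fact d.Prime]

lemma mem_A11 (t : (ZMod d)ˣ) : t ∈ AA d 1 1 ↔ 2 * (t : ZMod d).val < d := by
  simp only [AA, Finset.mem_filter, Finset.mem_univ, true_and, one_mul_val]
  omega

/-- The coefficients as sums over an interval. -/
lemma Sb_eq {n : ℕ} (hn : d = 2 * n + 1) (b : (ZMod d)ˣ) : Sb (AA d 1 1) b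
    = ∑ v ∈ Finset.Ico 1 (n + 1), (2 * ((v * (b : ZMod d).val % d : ℕ) : ℤ) - d) := by
  have h1 : Sb (AA d 1 1) b = ∑ v ∈ Finset.Ico 1 d,
      if 2 * v < d then (2 * ((v * (b : ZMod d).val % d : ℕ) : ℤ) - d) else 0 := by
    rw [← sum_units (d := d) (fun v => if 2 * v < d then
      (2 * ((v * (b : ZMod d).val % d : ℕ) : ℤ) - d) else 0), Sb]
    have h3 : (AA d 1 1) = Finset.univ.filter (fun t : (ZMod d)ˣ => 2 * (t : ZMod d).val < d) := by
      ext t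
      rw [mem_A11]
      simp
    rw [h3, Finset.sum_filter]
    refine Finset.sum_congr rfl fun t _ => ?_
    rw [Units.val_mul, ZMod.val_mul]
  rw [h1, ← Finset.sum_filter]
  congr 1
  ext v
  simp only [Finset.mem_filter, Finset.mem_Ico]
  omega

lemma sum_lin (n : ℕ) (c e : ℤ) : ∑ v ∈ Finset.Ico 1 (n + 1), (2 * (c * (v : ℤ)) - e)
    = c * (n * (n + 1)) - e * n := by
  induction n with
  | zero => simp
  | succ n ih =>
    rw [Finset.sum_Ico_succ_top (by omega), ih]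
    push_cast
    ring

lemma Sb_one (h2 : 2 < d) : 4 * Sb (AA d 1 1) (1 : (ZMod d)ˣ) = -((d : ℤ) - 1) ^ 2 := by
  have hodd : d % 2 = 1 := by
    rcases hd.out.eq_two_or_odd with h | h
    · omega
    · exact h
  obtain ⟨n, hn⟩ : ∃ n, d = 2 * n + 1 := ⟨d / 2, by omega⟩
  rw [Sb_eq hn]
  have h1 : ∀ v ∈ Finset.Ico 1 (n + 1),
      (2 * ((v * (((1 : (ZMod d)ˣ) : ZMod d)).val % d : ℕ) : ℤ) - d)
        = 2 * ((1 : ℤ) * (v : ℤ)) - d := by
    intro v hv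
    rw [Finset.mem_Ico] at hv
    have : Fact (1 < d) := ⟨hd.out.one_lt⟩
    rw [Units.val_one, ZMod.val_one, mul_one, Nat.mod_eq_of_lt (by omega), one_mul]
  rw [Finset.sum_congr rfl h1, sum_lin, hn]
  push_cast
  ring

lemma Sb_small {n c : ℕ} (hn : d = 2 * n + 1) (hc2 : 2 < c) (hc4 : c ≤ 4) (hcd : c < d) :
    Sb (AA d 1 1) (un d c) = (c : ℤ) * (n * (n + 1)) - d * n
      - 2 * d * ((n : ℤ) - ((d / c : ℕ) : ℤ)) := by
  rw [Sb_eq hn, un_val (by omega) hcd]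
  have h1 : ∀ v ∈ Finset.Ico 1 (n + 1), (2 * ((v * c % d : ℕ) : ℤ) - d)
        = (2 * ((c : ℤ) * (v : ℤ)) - d) - 2 * d * (if d / c < v then 1 else 0) := by
    intro v hv
    rw [Finset.mem_Ico] at hv
    have hvn : v * c ≤ n * c := Nat.mul_le_mul_right c (by omega)
    have hn4 : n * c ≤ n * 4 := Nat.mul_le_mul_left n hc4
    have hne : v * c ≠ d := by
      intro h
      have h3 : c ∣ d := ⟨v, by rw [← h, mul_comm]⟩
      rcases (Nat.dvd_prime hd.out).mp h3 with h4 | h4 <;> omega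
    by_cases h2 : d / c < v
    · rw [if_pos h2]
      have h3 : d < v * c := by
        have := (Nat.div_lt_iff_lt_mul (by omega : 0 < c)).mp h2
        exact this
      have h4 : v * c % d = v * c - d := by
        rw [Nat.mod_eq_sub_mod h3.le, Nat.mod_eq_of_lt (by omega)]
      rw [h4, Nat.cast_sub h3.le]
      push_cast
      ring
    · rw [if_neg h2]
      have h3 : v * c < d := by
        have h4 : v ≤ d / c := by omega
        have h5 : v * c ≤ d := (Nat.le_div_iff_mul_le (by omega : 0 < c)).mp h4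
        omega
      rw [Nat.mod_eq_of_lt h3]
      push_cast
      ring
  rw [Finset.sum_congr rfl h1, Finset.sum_sub_distrib, sum_lin, ← Finset.mul_sum]
  congr 2
  rw [Finset.sum_ite, Finset.sum_const_zero, add_zero, Finset.sum_const, nsmul_eq_mul, mul_one]
  have h2 : (Finset.Ico 1 (n + 1)).filter (fun v => d / c < v) = Finset.Ico (d / c + 1) (n + 1) := by
    ext v
    simp only [Finset.mem_filter, Finset.mem_Ico]
    generalize d / c = g
    omega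
  rw [h2, Nat.card_Ico]
  have h3 : d / c ≤ n := by
    have h4 : d / c ≤ d / 3 := Nat.div_le_div_left (by omega) (by omega)
    exact h4.trans (by omega)
  rw [Nat.add_sub_add_right, Nat.cast_sub h3]

end sums

/-- All coefficients are divisible by `l` if `l^(a+1)` does not divide `q - 1`. -/
theorem all_coeff {r e d p k l a : ℕ} (hr : r.Prime) (he : 1 ≤ e) (hp : p.Prime) (hd4 : 4 ≤ d)
    (hk : 1 < k) (hodd : Odd k) (hkr : k ∣ r - 1)
    (h : ((r ^ e) ^ d - 1) / (r ^ e - 1) = p ^ k) (hl : l.Prime) (ha : 1 ≤ a)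
    (hlk : l ^ a ∣ k) (hcon : ¬ l ^ (a + 1) ∣ r ^ e - 1) [hdd : Fact d.Prime] (b : (ZMod d)ˣ) :
    (l : ℤ) ∣ Sb (AA d 1 1) b := by
  have S := sol_of_eq (by omega) hp hr he hk h
  have hd : d.Prime := hdd.out
  have hpf : Fact p.Prime := ⟨hp⟩
  have hrd : ¬ d ∣ r - 1 := S.not_dvd_r hr
  obtain ⟨K, hF, hN, hC⟩ := exists_field d
  have hcop : Nat.Coprime k (2 * d) := by
    refine Nat.Coprime.mul_right ?_ ?_
    · exact hodd.coprime_two_right
    · rw [Nat.coprime_comm, Nat.Prime.coprime_iff_not_dvd hd]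
      exact fun h => hrd (h.trans hkr)
  have hnd : ∀ c : ℕ, 1 ≤ c → c ≤ 2 → ¬ d ∣ c := by
    intro c h1 h2 h3
    have := Nat.le_of_dvd h1 h3
    omega
  obtain ⟨x, hx⟩ := S.exists_WW (K := K) hcop (a := 1) (b := 1) (hnd _ (by omega) (by omega))
    (hnd _ (by omega) (by omega)) (hnd _ (by omega) (by omega))
  have hl_k : l ∣ k := (dvd_pow_self l (by omega)).trans hlk
  have hlodd : Odd l := Odd.of_dvd_nat hodd hl_k
  have hl_ne : l ≠ d := by
    intro h1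
    exact hrd (h1 ▸ (hl_k.trans hkr))
  have hcl : l.Coprime d := (Nat.coprime_primes hl hd).mpr hl_ne
  obtain ⟨m, hm⟩ := hlk
  set ρ := ZMod.unitOfCoprime l hcl with hρdef
  have hρ : (ρ : ZMod d) = (l : ZMod d) := ZMod.coe_unitOfCoprime l hcl
  -- divisibility of `q - 1`
  have hq1 : l ^ a ∣ r ^ e - 1 := by
    have h1 : r - 1 ∣ r ^ e - 1 := by simpa using Nat.sub_dvd_pow_sub_pow r 1 e
    exact ((Dvd.intro m hm.symm).trans hkr).trans h1
  obtain ⟨δ, hδ⟩ := hq1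
  have hqpos : 1 ≤ r ^ e := Nat.one_le_pow _ _ hr.pos
  have hqeq : ((r ^ e : ℕ) : 𝓞 K) - 1 = (l : 𝓞 K) ^ a * (δ : 𝓞 K) := by
    have h1 : r ^ e = l ^ a * δ + 1 := by omega
    rw [h1]; push_cast; ring
  have hql : (l : 𝓞 K) ∣ ((r ^ e : ℕ) : 𝓞 K) - 1 := by
    rw [hqeq]
    exact dvd_mul_of_dvd_left (dvd_pow_self _ (by omega)) _
  have hδl : ¬ l ∣ δ := by
    intro h1
    apply hcon
    rw [hδ, pow_succ]
    exact mul_dvd_mul_left _ h1
  have hv : (x ^ m) ^ l ^ a = ∏ t ∈ AA d 1 1, sg t⁻¹ (PP d K (r ^ e)) := by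
    rw [← hx.pow, ← pow_mul]
    congr 1
    rw [hm, mul_comm]
  have h1 := cong_one hl hlodd ρ hρ (AA d 1 1) (x ^ m) hv hql
  have h2 := cong_two (K := K) (r ^ e) (AA d 1 1)
  have h3 : (l : 𝓞 K) ^ (a + 1) ∣ (((r ^ e : ℕ) : 𝓞 K) - 1) ^ 2 := by
    rw [hqeq, mul_pow, ← pow_mul]
    exact dvd_mul_of_dvd_left (pow_dvd_pow _ (by omega)) _
  have h4 : (l : 𝓞 K) ^ (a + 1) ∣ (((r ^ e : ℕ) : 𝓞 K) - 1) * WS K (r ^ e) (AA d 1 1) := by
    have h5 := dvd_sub h1 (h3.trans h2)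
    have h6 : ((∏ t ∈ AA d 1 1, sg t⁻¹ (PP d K (r ^ e)))
          - ep K (AA d 1 1) * ∏ t ∈ AA d 1 1, Bt d K (r ^ e) t)
        - ((∏ t ∈ AA d 1 1, sg t⁻¹ (PP d K (r ^ e)))
          - (ep K (AA d 1 1) * (∏ t ∈ AA d 1 1, Bt d K (r ^ e) t)
            + (((r ^ e : ℕ) : 𝓞 K) - 1) * WS K (r ^ e) (AA d 1 1)))
        = (((r ^ e : ℕ) : 𝓞 K) - 1) * WS K (r ^ e) (AA d 1 1) := by ring
    rwa [h6] at h5
  have hl0 : (l : 𝓞 K) ≠ 0 := Nat.cast_ne_zero.mpr hl.ne_zero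
  have h5 : (l : 𝓞 K) ∣ (δ : 𝓞 K) * WS K (r ^ e) (AA d 1 1) := by
    rw [hqeq, pow_succ, mul_assoc] at h4
    exact (mul_dvd_mul_iff_left (pow_ne_zero a hl0)).mp h4
  have h6 : IsCoprime (l : 𝓞 K) (δ : 𝓞 K) := by
    have h7 : Nat.Coprime l δ := (Nat.Prime.coprime_iff_not_dvd hl).mpr hδl
    have := (Nat.isCoprime_iff_coprime.mpr h7).map (Int.castRingHom (𝓞 K))
    simpa using this
  have h7 : (l : 𝓞 K) ∣ WS K (r ^ e) (AA d 1 1) := h6.dvd_of_dvd_mul_left h5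
  have h8 : IsCoprime (l : 𝓞 K) (d : 𝓞 K) := by
    have := (Nat.isCoprime_iff_coprime.mpr hcl).map (Int.castRingHom (𝓞 K))
    simpa using this
  have h9 := dvd_sum_E h8 (AA d 1 1) hql h7
  rw [sum_E_eq] at h9
  exact coeff_all (K := K) (fun b => Sb (AA d 1 1) b) (by simpa using h9) b

/-- The first half of the criterion. -/
theorem dvd_q_sub {r e d p k l a : ℕ} (hr : r.Prime) (he : 1 ≤ e) (hp : p.Prime) (hd4 : 4 ≤ d)
    (hk : 1 < k) (hodd : Odd k) (hkr : k ∣ r - 1)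
    (h : ((r ^ e) ^ d - 1) / (r ^ e - 1) = p ^ k) (hl : l.Prime) (ha : 1 ≤ a)
    (hlk : l ^ a ∣ k) (hld : ¬ (12 ∣ d - 1 ∧ l ∣ d - 1)) : l ^ (a + 1) ∣ r ^ e - 1 := by
  have S := sol_of_eq (by omega) hp hr he hk h
  have hd : d.Prime := d_prime S.hq (by omega) hp S.eq
  have hdf : Fact d.Prime := ⟨hd⟩
  have hl_k : l ∣ k := (dvd_pow_self l (by omega)).trans hlk
  have hlodd : Odd l := Odd.of_dvd_nat hodd hl_k
  have hl2 : l ≠ 2 := by rintro rfl; exact absurd hlodd (by decide)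
  by_contra hcon
  have hall := fun b => all_coeff hr he hp hd4 hk hodd hkr h hl ha hlk hcon (d := d) b
  have hpi := Nat.prime_iff_prime_int.mp hl
  have h12 : (l : ℤ) ∣ (d : ℤ) - 1 := by
    have h11 : (l : ℤ) ∣ -((d : ℤ) - 1) ^ 2 := by
      rw [← Sb_one (by omega : 2 < d)]
      exact dvd_mul_of_dvd_right (hall 1) _
    rw [dvd_neg] at h11
    exact hpi.dvd_of_dvd_pow h11
  have h14 : l ∣ d - 1 := by
    have h13 : ((d : ℤ) - 1) = ((d - 1 : ℕ) : ℤ) := by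
      rw [Nat.cast_sub (by omega)]; simp
    rw [h13] at h12
    exact Int.natCast_dvd_natCast.mp h12
  have hnd : ∀ c : ℕ, 2 ≤ c → c < d → ¬ c ∣ d := by
    intro c h1 h2 h3
    rcases (Nat.dvd_prime hd).mp h3 with h4 | h4 <;> omega
  have hd5 : 5 ≤ d := by
    rcases Nat.lt_or_ge d 5 with h1 | h1
    · exfalso
      have h2 : d = 4 := by omega
      exact hnd 2 (by omega) (by omega) ⟨2, by omega⟩
    · exact h1
  have hodd' : d % 2 = 1 := by
    have := hnd 2 (by omega) (by omega)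
    omega
  obtain ⟨n, hn⟩ : ∃ n, d = 2 * n + 1 := ⟨d / 2, by omega⟩
  have hl2' : ¬ (l : ℤ) ∣ 2 := by
    intro h1
    have h2 : l ∣ 2 := by exact_mod_cast h1
    exact hl2 ((Nat.prime_dvd_prime_iff_eq hl Nat.prime_two).mp h2)
  have hln : (l : ℤ) ∣ (n : ℤ) := by
    have h1 : (d : ℤ) - 1 = 2 * n := by rw [hn]; push_cast; ring
    rw [h1] at h12
    exact (hpi.dvd_or_dvd h12).resolve_left hl2'
  have hld' : ¬ (l : ℤ) ∣ (d : ℤ) := by
    intro h1
    have h2 := dvd_sub h1 h12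
    have h3 : (d : ℤ) - (d - 1) = 1 := by ring
    rw [h3] at h2
    exact hpi.not_dvd_one h2
  -- both tests
  have hkey : ∀ c : ℕ, 2 < c → c ≤ 4 → (l : ℤ) ∣ ((d / c : ℕ) : ℤ) := by
    intro c hc2 hc4
    have h1 := hall (un d c)
    rw [Sb_small hn hc2 hc4 (by omega)] at h1
    have h2 : (l : ℤ) ∣ (c : ℤ) * (n * (n + 1)) - d * n - 2 * d * n :=
      dvd_sub (dvd_sub (dvd_mul_of_dvd_right (dvd_mul_of_dvd_left hln _) _)
        (dvd_mul_of_dvd_right hln _)) (dvd_mul_of_dvd_right hln _)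
    have h3 := dvd_sub h1 h2
    have h4 : (c : ℤ) * (n * (n + 1)) - d * n - 2 * d * ((n : ℤ) - ((d / c : ℕ) : ℤ))
        - ((c : ℤ) * (n * (n + 1)) - d * n - 2 * d * n) = 2 * (d * ((d / c : ℕ) : ℤ)) := by ring
    rw [h4] at h3
    exact (hpi.dvd_or_dvd ((hpi.dvd_or_dvd h3).resolve_left hl2')).resolve_left hld'
  have hmod3 : d % 3 = 1 := by
    have h1 := hnd 3 (by omega) (by omega)
    by_contra h2
    have h3 : d % 3 = 2 := by omega
    have h4 := hkey 3 (by omega) (by omega)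
    have h5 : (3 : ℤ) * ((d / 3 : ℕ) : ℤ) = d - 2 := by
      have := Nat.div_add_mod d 3
      rw [h3] at this
      have h6 : ((3 * (d / 3) + 2 : ℕ) : ℤ) = (d : ℤ) := by rw [this]
      push_cast at h6 ⊢
      linarith
    have h6 : (l : ℤ) ∣ (d : ℤ) - 2 := by rw [← h5]; exact dvd_mul_of_dvd_right h4 _
    have h7 := dvd_sub h12 h6
    have h8 : (d : ℤ) - 1 - (d - 2) = 1 := by ring
    rw [h8] at h7
    exact hpi.not_dvd_one h7
  have hmod4 : d % 4 = 1 := by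
    by_contra h2
    have h3 : d % 4 = 3 := by omega
    have h4 := hkey 4 (by omega) (by omega)
    have h5 : (4 : ℤ) * ((d / 4 : ℕ) : ℤ) = d - 3 := by
      have := Nat.div_add_mod d 4
      rw [h3] at this
      have h6 : ((4 * (d / 4) + 3 : ℕ) : ℤ) = (d : ℤ) := by rw [this]
      push_cast at h6 ⊢
      linarith
    have h6 : (l : ℤ) ∣ (d : ℤ) - 3 := by rw [← h5]; exact dvd_mul_of_dvd_right h4 _
    have h7 := dvd_sub h12 h6
    have h8 : (d : ℤ) - 1 - (d - 3) = 2 := by ring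
    rw [h8] at h7
    exact hl2' h7
  exact hld ⟨by omega, h14⟩

/-- The case of `l` dividing `d - 1`. -/
theorem dvd_d_sub {d p k q l a : ℕ} (hd4 : 4 ≤ d)
    (hq : 2 ≤ q) (heq : ∑ i ∈ Finset.range d, q ^ i = p ^ k) (hl : l.Prime) (hodd : Odd l)
    (hlk : l ^ a ∣ k) (hlq : l ∣ q - 1) (hld : l ∣ d - 1) : l ^ (a + 1) ∣ d - 1 := by
  have hlf : Fact l.Prime := ⟨hl⟩
  obtain ⟨m, hm⟩ := hlk
  have hq1 : ((q : ℕ) : ZMod l) = 1 := by
    have h1 : ((q - 1 : ℕ) : ZMod l) = 0 := (ZMod.natCast_eq_zero_iff _ _).mpr hlq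
    rw [Nat.cast_sub (by omega), Nat.cast_one] at h1
    exact sub_eq_zero.mp h1
  have hd1 : ((d : ℕ) : ZMod l) = 1 := by
    have h1 : ((d - 1 : ℕ) : ZMod l) = 0 := (ZMod.natCast_eq_zero_iff _ _).mpr hld
    rw [Nat.cast_sub (by omega), Nat.cast_one] at h1
    exact sub_eq_zero.mp h1
  have h1 : ((p : ℕ) : ZMod l) ^ k = 1 := by
    have h2 := congrArg (fun n : ℕ => (n : ZMod l)) heq
    simp only [Nat.cast_sum, Nat.cast_pow] at h2
    rw [← h2, hq1]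
    simp [hd1]
  have h2 : ((p : ℕ) : ZMod l) ^ m = 1 := by
    rw [hm, mul_comm, pow_mul, ZMod.pow_card_pow] at h1
    exact h1
  have h3 : (l : ℤ) ∣ (p : ℤ) ^ m - 1 := by
    rw [← ZMod.intCast_zmod_eq_zero_iff_dvd]
    push_cast
    rw [h2, sub_self]
  have h4 : (l : ℤ) ^ (a + 1) ∣ (p : ℤ) ^ k - 1 := by
    have h5 := dvd_sub_pow_of_dvd_sub (p := l) (a := (p : ℤ) ^ m) (b := 1) h3 a
    rw [one_pow, ← pow_mul] at h5
    rw [hm, mul_comm]
    exact h5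
  set T := ∑ i ∈ Finset.range (d - 1), q ^ i with hT
  have h5 : p ^ k = q * T + 1 := by
    rw [← heq, hT]
    obtain ⟨n, rfl⟩ : ∃ n, d = n + 1 := ⟨d - 1, by omega⟩
    rw [Finset.sum_range_succ', pow_zero, Nat.add_sub_cancel, Finset.mul_sum]
    congr 1
    refine Finset.sum_congr rfl fun i _ => ?_
    rw [pow_succ']
  have h6 : l ^ (a + 1) ∣ q * T := by
    have h7 : ((p : ℤ) ^ k - 1) = ((q * T : ℕ) : ℤ) := by
      have : ((p ^ k : ℕ) : ℤ) = ((q * T + 1 : ℕ) : ℤ) := by rw [h5]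
      push_cast at this ⊢
      linarith
    rw [h7] at h4
    exact_mod_cast h4
  have h7 : Nat.Coprime (l ^ (a + 1)) q := by
    apply Nat.Coprime.pow_left
    rw [Nat.Prime.coprime_iff_not_dvd hl]
    intro h8
    have h9 : ((q : ℕ) : ZMod l) = 0 := (ZMod.natCast_eq_zero_iff _ _).mpr h8
    rw [hq1] at h9
    exact one_ne_zero h9
  have h8 : l ^ (a + 1) ∣ T := h7.dvd_of_dvd_mul_left h6
  have hlnq : ¬ l ∣ q := by
    intro h8
    have h9 : ((q : ℕ) : ZMod l) = 0 := (ZMod.natCast_eq_zero_iff _ _).mpr h8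
    rw [hq1] at h9
    exact one_ne_zero h9
  have h9 := padicValNat.pow_sub_pow hodd (x := q) (y := 1) (by omega) hlq hlnq
    (n := d - 1) (by omega)
  have hT0 : T ≠ 0 := by
    intro h10
    rw [h10, mul_zero, zero_add] at h5
    have h11 : ∑ i ∈ Finset.range d, q ^ i = 1 := by rw [heq, h5]
    have h12 : q ^ 1 ≤ ∑ i ∈ Finset.range d, q ^ i :=
      Finset.single_le_sum (f := fun i => q ^ i) (fun i _ => Nat.zero_le _)
        (Finset.mem_range.mpr (by omega))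
    rw [h11, pow_one] at h12
    omega
  have h10 : q ^ (d - 1) - 1 = (q - 1) * T := by
    rw [hT, Nat.geomSum_eq hq]
    have h11 : (q - 1) ∣ q ^ (d - 1) - 1 := by
      simpa using Nat.sub_dvd_pow_sub_pow q 1 (d - 1)
    rw [Nat.mul_div_cancel' h11]
  rw [one_pow, h10, padicValNat.mul (by omega) hT0] at h9
  have h11 : padicValNat l T = padicValNat l (d - 1) := by omega
  have h12 : a + 1 ≤ padicValNat l T := (padicValNat_dvd_iff_le hT0).mp h8
  rw [h11] at h12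
  exact (padicValNat_dvd_iff_le (by omega)).mpr h12

/-- The Wieferich congruence from `q = 1 mod l^(a+1)`. -/
theorem wief_of_dvd {d p k q l a : ℕ} (hd4 : 4 ≤ d) (hd : d.Prime)
    (hq : 2 ≤ q) (heq : ∑ i ∈ Finset.range d, q ^ i = p ^ k) (hl : l.Prime)
    (hlk : l ^ a ∣ k) (hk : k ≠ 0) (hlq : l ^ (a + 1) ∣ q - 1) (hne : l ≠ d) :
    l ^ (a + 1) ∣ d ^ (l - 1) - 1 := by
  obtain ⟨m, hm⟩ := hlk
  have h1 : p ^ k ≡ d [MOD l ^ (a + 1)] := by
    have h2 : q ≡ 1 [MOD l ^ (a + 1)] := ((Nat.modEq_iff_dvd' (by omega)).mpr hlq).symm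
    have h3 : ∑ i ∈ Finset.range d, q ^ i ≡ ∑ i ∈ Finset.range d, 1 [MOD l ^ (a + 1)] := by
      rw [← ZMod.natCast_eq_natCast_iff]
      push_cast
      refine Finset.sum_congr rfl fun i _ => ?_
      have : ((q : ℕ) : ZMod (l ^ (a + 1))) = ((1 : ℕ) : ZMod (l ^ (a + 1))) :=
        (ZMod.natCast_eq_natCast_iff _ _ _).mpr h2
      rw [this]; simp
    rw [heq] at h3
    simpa using h3
  have hlp : ¬ l ∣ p := by
    intro h2
    have h3 : l ∣ p ^ k := dvd_pow h2 hk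
    have h4 : p ^ k ≡ d [MOD l] := h1.of_dvd (dvd_pow_self l (by omega))
    have h5 : l ∣ d := Nat.modEq_zero_iff_dvd.mp (h4.symm.trans (Nat.modEq_zero_iff_dvd.mpr h3))
    exact hne ((Nat.prime_dvd_prime_iff_eq hl hd).mp h5)
  have hcop : Nat.Coprime (p ^ m) (l ^ (a + 1)) := by
    apply Nat.Coprime.pow
    rw [Nat.coprime_comm]
    exact (Nat.Prime.coprime_iff_not_dvd hl).mpr hlp
  have h2 := Nat.ModEq.pow_totient hcop
  rw [Nat.totient_prime_pow_succ hl] at h2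
  have h3 : (p ^ m) ^ (l ^ a * (l - 1)) = (p ^ k) ^ (l - 1) := by
    rw [← pow_mul, ← pow_mul]
    congr 1
    rw [hm]; ring
  rw [h3] at h2
  have h4 : d ^ (l - 1) ≡ 1 [MOD l ^ (a + 1)] := (h1.pow (l - 1)).symm.trans h2
  exact (Nat.modEq_iff_dvd' (Nat.one_le_pow _ _ (by omega))).mp h4.symm

/-- The criterion. -/
theorem wieferich {r e d p k l a : ℕ} (hr : r.Prime) (he : 1 ≤ e) (hp : p.Prime) (hd4 : 4 ≤ d)
    (hk : 1 < k) (hodd : Odd k) (hkr : k ∣ r - 1)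
    (h : ((r ^ e) ^ d - 1) / (r ^ e - 1) = p ^ k) (hl : l.Prime) (ha : 1 ≤ a)
    (hlk : l ^ a ∣ k) :
    l ^ (a + 1) ∣ d ^ (l - 1) - 1 ∧
      (l ^ (a + 1) ∣ r ^ e - 1 ∨ (l ^ (a + 1) ∣ d - 1 ∧ 12 ∣ d - 1)) := by
  have S := sol_of_eq (by omega) hp hr he hk h
  have hd : d.Prime := d_prime S.hq (by omega) hp S.eq
  have hdf : Fact d.Prime := ⟨hd⟩
  have hrd : ¬ d ∣ r - 1 := S.not_dvd_r hr
  have hl_k : l ∣ k := (dvd_pow_self l (by omega)).trans hlk
  have hlodd : Odd l := Odd.of_dvd_nat hodd hl_k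
  have hl_ne : l ≠ d := by
    intro h1
    exact hrd (h1 ▸ (hl_k.trans hkr))
  have hlq : l ∣ r ^ e - 1 := by
    have h1 : r - 1 ∣ r ^ e - 1 := by simpa using Nat.sub_dvd_pow_sub_pow r 1 e
    exact (hl_k.trans hkr).trans h1
  by_cases hld : 12 ∣ d - 1 ∧ l ∣ d - 1
  · have h1 := dvd_d_sub hd4 S.hq S.eq hl hlodd hlk hlq hld.2
    refine ⟨?_, Or.inr ⟨h1, hld.1⟩⟩
    have h2 : d - 1 ∣ d ^ (l - 1) - 1 := by simpa using Nat.sub_dvd_pow_sub_pow d 1 (l - 1)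
    exact h1.trans h2
  · have h1 := dvd_q_sub hr he hp hd4 hk hodd hkr h hl ha hlk hld
    exact ⟨wief_of_dvd hd4 hd S.hq S.eq hl hlk (by omega) h1 hl_ne, Or.inl h1⟩

end

end Pool.Agent.H25.NW
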