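import Pool.Agent.H26.NL.Fin
import Pool.Agent.H25.NP.HbFin

/-!
# Unified forms
-/

set_option autoImplicit false

namespace Pool.Agent.H25.NW

open Pool.Agent.H26.NL

/-- A finite commutative group whose order is divisible by the prime `κ` has at least `κ` elements
killed by `κ`. -/
lemma torsion_card {G : Type*} [CommGroup G] [Finite G] {κ : ℕ} (hκ : κ.Prime)
    (h : κ ∣ Nat.card G) : κ ≤ Nat.card {c : G // c ^ κ = 1} := by
  have : Fact κ.Prime := ⟨hκ⟩
  obtain ⟨c, hc⟩ := exists_prime_orderOf_dvd_card' (G := G) κ h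
  have h1 : Nat.card (Subgroup.zpowers c) = κ := by rw [Nat.card_zpowers, hc]
  have h2 : ∀ x : Subgroup.zpowers c, (x : G) ^ κ = 1 := by
    intro x
    have h3 := pow_card_eq_one' (x := x)
    rw [h1] at h3
    have := congrArg Subtype.val h3
    simpa using this
  have h3 : Function.Injective (fun x : Subgroup.zpowers c => (⟨(x : G), h2 x⟩ :
      {c : G // c ^ κ = 1})) := by
    intro x y hxy
    have := congrArg Subtype.val hxy
    exact Subtype.ext this
  calc κ = Nat.card (Subgroup.zpowers c) := h1.symm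
    _ ≤ _ := Nat.card_le_card_of_injective _ h3

/-- The torsion of the class group. -/
theorem classTorsion {r e d p k κ : ℕ} (hr : r.Prime) (he : 1 ≤ e) (hp : p.Prime) (hd : 4 ≤ d)
    (hk : 1 < k) (hκ : κ.Prime) (hκ2 : κ ≠ 2) (hκk : κ ∣ k) (hκr : κ ∣ r - 1)
    (hq : 33 ≤ r ^ e) (h : ((r ^ e) ^ d - 1) / (r ^ e - 1) = p ^ k) :
    d ≤ Nat.card {c : ClassGroup (NumberField.RingOfIntegers (CyclotomicField d ℚ)) //
        c ^ κ = 1} ∨
      (κ = 3 ∧ r ≠ d ∧ (∀ j : ℕ, ¬ d ∣ r ^ j + 1) ∧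
        3 ≤ Nat.card {c : ClassGroup (NumberField.RingOfIntegers (CyclotomicField d ℚ)) //
          c ^ κ = 1}) := by
  by_cases hc : 5 ≤ κ ∨ r = d ∨ ∃ j : ℕ, d ∣ r ^ j + 1
  · left
    exact classRank hd hp hr he hκ hκk hκ2 hκr hq h hk hc
  · right
    push Not at hc
    obtain ⟨h1, h2, h3⟩ := hc
    have hκ3 : κ = 3 := by
      have h4 := hκ.two_le
      have h5 : κ ≠ 4 := by rintro rfl; exact absurd hκ (by norm_num)
      omega
    refine ⟨hκ3, h2, h3, ?_⟩
    have h4 := classNumber_dvd hd hp hr he hκ hκk hκ2 hκr (by omega) h hk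
    have h5 : κ ∣ Nat.card (ClassGroup (NumberField.RingOfIntegers (CyclotomicField d ℚ))) := by
      rw [Nat.card_eq_fintype_card]
      exact h4
    have h6 := torsion_card hκ h5
    omega

/-- The norm bound, in both cases. -/
theorem normBound {r e d p k c : ℕ} (hr : r.Prime) (he : 1 ≤ e) (hp : p.Prime) (hd : 4 ≤ d)
    (hk : 1 < k) (hodd : Odd k) (hkr : k ∣ r - 1)
    (h : ((r ^ e) ^ d - 1) / (r ^ e - 1) = p ^ k)
    (hc : c = 2 ∨ (c = 1 ∧ (r = d ∨ ∃ j : ℕ, d ∣ r ^ j + 1))) :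
    (r ^ e) ^ (d - 1) ≤ 2 ^ (d - 1) * p ^ (c * (d / 3 - d / 4)) := by
  rcases hc with rfl | ⟨rfl, hc⟩
  · exact theoremB hd hp hr he hk hodd hkr h
  · rw [one_mul]
    exact theoremA hd hp hr he hk hodd hkr hc h

/-- The height bound, in both cases. -/
theorem heightBound' {r e d p k c D : ℕ} (hr : r.Prime) (he : 1 ≤ e) (hp : p.Prime) (hd : 4 ≤ d)
    (hk : 1 < k) (hodd : Odd k) (hkr : k ∣ r - 1)
    (h : ((r ^ e) ^ d - 1) / (r ^ e - 1) = p ^ k)
    (hc : c = 2 ∨ (c = 1 ∧ (r = d ∨ ∃ j : ℕ, d ∣ r ^ j + 1)))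
    (hD : c * (d + 5) ≤ 6 * k * D) : r ^ e ≤ (4 * k) ^ (4 * D) := by
  have h1 := Pool.Agent.H25.NP.heightBound (D := D) hd hp hr he hk hodd hkr h
  rcases hc with rfl | ⟨rfl, hc⟩
  · refine h1.1 ?_
    have e1 : 6 * k * D = 2 * (3 * k * D) := by ring
    omega
  · exact h1.2 hc (by omega)

end Pool.Agent.H25.NW
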