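import Pool.Agent.H25.NW.Wief

/-!
# The obstruction is not divisible by `l` if `l` does not divide `d - 1`
-/

set_option autoImplicit false

namespace Pool.Agent.H25.NW

open NumberField Polynomial Pool.Agent.H26.NL

noncomputable section

variable {d : ℕ} [hd : Fact d.Prime] {K : Type} [Field K] [NumberField K]
  [IsCyclotomicExtension {d} ℚ K]

/-- Sums over the units modulo `d`. -/
lemma sum_units {M : Type*} [AddCommMonoid M] (f : ℕ → M) :
    ∑ m : (ZMod d)ˣ, f ((m : ZMod d).val) = ∑ v ∈ Finset.Ico 1 d, f v := by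
  refine Finset.sum_bij' (fun m _ => (m : ZMod d).val) (fun v _ => un d v) ?_ ?_ ?_ ?_ ?_
  · intro m _
    rw [Finset.mem_Ico]
    refine ⟨?_, ZMod.val_lt _⟩
    rcases Nat.eq_zero_or_pos ((m : ZMod d).val) with h | h
    · exfalso
      apply unit_val_ne m
      rw [h]; exact dvd_zero d
    · exact h
  · intro v _; exact Finset.mem_univ _
  · intro m _
    apply Units.ext
    apply ZMod.val_injective d
    have h1 : 1 ≤ (m : ZMod d).val := by
      rcases Nat.eq_zero_or_pos ((m : ZMod d).val) with h | h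
      · exfalso
        apply unit_val_ne m
        rw [h]; exact dvd_zero d
      · exact h
    exact un_val h1 (ZMod.val_lt _)
  · intro v hv
    rw [Finset.mem_Ico] at hv
    exact un_val hv.1 hv.2
  · intro m _; rfl

/-- `E(z) = sum (2m - d) z^m`. -/
def EE' (d : ℕ) (z : 𝓞 K) : 𝓞 K := ∑ m ∈ Finset.Ico 1 d, (2 * (m : 𝓞 K) - d) * z ^ m

omit [NumberField K] [IsCyclotomicExtension {d} ℚ K] in
lemma EE'_eq {z : 𝓞 K} (hz : z ^ d = 1) (hz1 : z ≠ 1) : (1 - z) * EE' d z = -(d : 𝓞 K) * (1 + z) := by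
  have hd1 : 1 ≤ d := hd.out.one_lt.le
  have hgen : ∀ n : ℕ, 1 ≤ n → ∀ c : 𝓞 K,
      (1 - z) * ∑ m ∈ Finset.Ico 1 n, (2 * (m : 𝓞 K) - c) * z ^ m
        = 2 * (∑ m ∈ Finset.range n, z ^ m) - 2 - (2 * (n : 𝓞 K) - 2) * z ^ n
          - c * (z - z ^ n) := by
    intro n hn c
    induction n, hn using Nat.le_induction with
    | base => simp
    | succ n hn ih =>
      rw [Finset.sum_Ico_succ_top hn, mul_add, ih, Finset.sum_range_succ]
      push_cast
      ring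
  rw [EE', hgen d hd1 (d : 𝓞 K), hz, geom_zero hz hz1]
  ring

lemma Zt_ne (t : (ZMod d)ˣ) : Zt d K t ≠ 1 := zt_pow_ne _

lemma one_sub_Zt_coprime {l : ℕ} (h : IsCoprime (l : 𝓞 K) (d : 𝓞 K)) (t : (ZMod d)ˣ) :
    IsCoprime (l : 𝓞 K) (1 - Zt d K t) := by
  have h1 : (1 - Zt d K t) ∣ (d : 𝓞 K) := by
    have hgen : ∀ n : ℕ, (1 - Zt d K t) * ∑ m ∈ Finset.range n, (m : 𝓞 K) * Zt d K t ^ m
        = (∑ m ∈ Finset.range n, Zt d K t ^ m) - 1 - ((n : 𝓞 K) - 1) * Zt d K t ^ n := by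
      intro n
      induction n with
      | zero => simp
      | succ n ih =>
        rw [Finset.sum_range_succ, mul_add, ih, Finset.sum_range_succ]
        push_cast
        ring
    refine ⟨-∑ m ∈ Finset.range d, (m : 𝓞 K) * Zt d K t ^ m, ?_⟩
    have h3 := hgen d
    rw [Zt_pow, geom_zero (Zt_pow t) (Zt_ne t)] at h3
    linear_combination h3
  exact h.of_isCoprime_of_dvd_right h1

/-- If `l` divides the obstruction, it divides the sum of the `E`. -/
lemma dvd_sum_E {l q : ℕ} (h : IsCoprime (l : 𝓞 K) (d : 𝓞 K)) (A : Finset (ZMod d)ˣ)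
    (hq : (l : 𝓞 K) ∣ (q : 𝓞 K) - 1) (hW : (l : 𝓞 K) ∣ WS K q A) :
    (l : 𝓞 K) ∣ ∑ t ∈ A, EE' d (Zt d K t) := by
  set W' : 𝓞 K := ∑ t ∈ A, -(1 + Zt d K t) * ∏ s ∈ A.erase t, (1 - Zt d K s) with hW'
  have h1 : (l : 𝓞 K) ∣ WS K q A - W' := by
    rw [WS, hW', ← Finset.sum_sub_distrib]
    refine Finset.dvd_sum fun t _ => ?_
    rw [← mul_sub]
    refine dvd_mul_of_dvd_right ?_ _
    apply prod_dvd_sub
    intro s _
    have h2 := ZB (K := K) q s
    have h3 : -Zt d K s * Bt d K q s - (1 - Zt d K s) = (q : 𝓞 K) - 1 := by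
      linear_combination -h2
    rw [h3]
    exact hq
  have h2 : (l : 𝓞 K) ∣ W' := by
    have := dvd_sub hW h1
    simpa using this
  have h3 : (d : 𝓞 K) * W' = (∑ t ∈ A, EE' d (Zt d K t)) * ∏ s ∈ A, (1 - Zt d K s) := by
    rw [hW', Finset.mul_sum, Finset.sum_mul]
    refine Finset.sum_congr rfl fun t ht => ?_
    rw [← Finset.mul_prod_erase A _ ht]
    have h4 := EE'_eq (d := d) (Zt_pow (K := K) t) (Zt_ne t)
    linear_combination (-(∏ s ∈ A.erase t, (1 - Zt d K s))) * h4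
  have h4 : (l : 𝓞 K) ∣ (∑ t ∈ A, EE' d (Zt d K t)) * ∏ s ∈ A, (1 - Zt d K s) := by
    rw [← h3]; exact dvd_mul_of_dvd_right h2 _
  have h5 : IsCoprime (l : 𝓞 K) (∏ s ∈ A, (1 - Zt d K s)) :=
    IsCoprime.prod_right fun s _ => one_sub_Zt_coprime h s
  exact h5.dvd_of_dvd_mul_right h4

/-- The coefficients. -/
def Sb (A : Finset (ZMod d)ˣ) (b : (ZMod d)ˣ) : ℤ :=
  ∑ t ∈ A, (2 * (((t * b : (ZMod d)ˣ) : ZMod d).val : ℤ) - d)

lemma sum_E_eq (A : Finset (ZMod d)ˣ) : ∑ t ∈ A, EE' d (Zt d K t)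
    = ∑ b : (ZMod d)ˣ, (Sb A b : 𝓞 K) * zt d K ^ (b : ZMod d).val := by
  have h1 : ∀ t ∈ A, EE' d (Zt d K t) = ∑ b : (ZMod d)ˣ,
      (2 * ((((t * b : (ZMod d)ˣ) : ZMod d).val : ℕ) : 𝓞 K) - d) * zt d K ^ (b : ZMod d).val := by
    intro t _
    rw [EE', ← sum_units (d := d) (fun m => (2 * (m : 𝓞 K) - d) * Zt d K t ^ m),
      ← Equiv.sum_comp (Equiv.mulLeft t)]
    refine Finset.sum_congr rfl fun b _ => ?_
    rw [Equiv.coe_mulLeft]
    congr 1
    rw [Zt, ← pow_val_mul (zt_spec d K).pow_eq_one, Units.val_mul, ← mul_assoc, ← Units.val_mul,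
      inv_mul_cancel, Units.val_one, one_mul]
  rw [Finset.sum_congr rfl h1, Finset.sum_comm]
  refine Finset.sum_congr rfl fun b _ => ?_
  rw [← Finset.sum_mul, Sb]
  congr 1
  push_cast
  rfl

lemma pb_dim : (pb d K).dim = d - 1 := by
  have h1 := (pb d K).natDegree_minpoly
  rw [pb_gen, minpoly_zt, natDegree_cyclotomic, Nat.totient_prime hd.out] at h1
  exact h1.symm

/-- Extraction of a coefficient. -/
lemma coeff_extract {l : ℤ} (c : (ZMod d)ˣ → ℤ)
    (h : (l : 𝓞 K) ∣ ∑ b : (ZMod d)ˣ, (c b : 𝓞 K) * zt d K ^ (b : ZMod d).val) : l ∣ c 1 := by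
  obtain ⟨y, hy⟩ := h
  have hz := (zt_spec d K).pow_eq_one
  have hd2 : 2 ≤ d := hd.out.two_le
  have h1 : ∑ b : (ZMod d)ˣ, (c b : 𝓞 K) * zt d K ^ ((b : ZMod d).val - 1)
      = (l : 𝓞 K) * (zt d K ^ (d - 1) * y) := by
    have h2 : (l : 𝓞 K) * (zt d K ^ (d - 1) * y) = zt d K ^ (d - 1) * ((l : 𝓞 K) * y) := by ring
    rw [h2, ← hy, Finset.mul_sum]
    refine Finset.sum_congr rfl fun b _ => ?_
    have h3 : 1 ≤ (b : ZMod d).val := by
      rcases Nat.eq_zero_or_pos ((b : ZMod d).val) with h | h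
      · exfalso
        apply unit_val_ne b
        rw [h]; exact dvd_zero d
      · exact h
    have h4 : zt d K ^ (d - 1) * zt d K ^ (b : ZMod d).val
        = zt d K ^ ((b : ZMod d).val - 1) := by
      rw [← pow_add]
      have : d - 1 + (b : ZMod d).val = d + ((b : ZMod d).val - 1) := by omega
      rw [this, pow_add, hz, one_mul]
    calc (c b : 𝓞 K) * zt d K ^ ((b : ZMod d).val - 1)
        = (c b : 𝓞 K) * (zt d K ^ (d - 1) * zt d K ^ (b : ZMod d).val) := by rw [h4]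
      _ = _ := by ring
  have hdim := pb_dim (d := d) (K := K)
  have h0 : 0 < (pb d K).dim := by rw [hdim]; omega
  set B := (pb d K).basis with hB
  have hcoord : ∀ b : (ZMod d)ˣ, B.repr (zt d K ^ ((b : ZMod d).val - 1)) ⟨0, h0⟩
      = if b = 1 then 1 else 0 := by
    intro b
    have hb1 : 1 ≤ (b : ZMod d).val := by
      rcases Nat.eq_zero_or_pos ((b : ZMod d).val) with h | h
      · exfalso
        apply unit_val_ne b
        rw [h]; exact dvd_zero d
      · exact h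
    have hlt : (b : ZMod d).val - 1 < (pb d K).dim := by
      rw [hdim]
      have := ZMod.val_lt (b : ZMod d)
      omega
    have h5 : zt d K ^ ((b : ZMod d).val - 1) = B ⟨(b : ZMod d).val - 1, hlt⟩ := by
      rw [hB, (pb d K).basis_eq_pow, pb_gen]
    rw [h5, B.repr_self, Finsupp.single_apply]
    congr 1
    rw [Fin.mk.injEq, eq_iff_iff]
    constructor
    · intro h6
      apply Units.ext
      apply ZMod.val_injective d
      have : Fact (1 < d) := ⟨hd.out.one_lt⟩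
      rw [Units.val_one, ZMod.val_one]
      omega
    · intro h6
      have : Fact (1 < d) := ⟨hd.out.one_lt⟩
      rw [h6, Units.val_one, ZMod.val_one]
  have h2 := congrArg (fun z => B.repr z ⟨0, h0⟩) h1
  have h3 : (l : 𝓞 K) * (zt d K ^ (d - 1) * y) = l • (zt d K ^ (d - 1) * y) := by
    rw [zsmul_eq_mul]
  have h4 : ∀ b : (ZMod d)ˣ, (c b : 𝓞 K) * zt d K ^ ((b : ZMod d).val - 1)
      = c b • zt d K ^ ((b : ZMod d).val - 1) := fun b => by rw [zsmul_eq_mul]
  simp only [h3, h4, map_sum, map_zsmul, Finsupp.coe_finsetSum, Finset.sum_apply,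
    Finsupp.coe_smul, Pi.smul_apply, smul_eq_mul, hcoord] at h2
  rw [Finset.sum_eq_single_of_mem (1 : (ZMod d)ˣ) (Finset.mem_univ _)] at h2
  · rw [if_pos rfl, mul_one] at h2
    exact ⟨_, h2⟩
  · intro b _ hb
    rw [if_neg hb, mul_zero]

/-- All coefficients. -/
lemma coeff_all {l : ℤ} (c : (ZMod d)ˣ → ℤ)
    (h : (l : 𝓞 K) ∣ ∑ b : (ZMod d)ˣ, (c b : 𝓞 K) * zt d K ^ (b : ZMod d).val)
    (b : (ZMod d)ˣ) : l ∣ c b := by
  have h1 := map_dvd (sg (K := K) b⁻¹) h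
  rw [map_intCast, map_sum] at h1
  have h2 : ∑ x : (ZMod d)ˣ, sg b⁻¹ ((c x : 𝓞 K) * zt d K ^ (x : ZMod d).val)
      = ∑ x : (ZMod d)ˣ, (c (b * x) : 𝓞 K) * zt d K ^ (x : ZMod d).val := by
    rw [← Equiv.sum_comp (Equiv.mulLeft b)]
    refine Finset.sum_congr rfl fun x _ => ?_
    rw [Equiv.coe_mulLeft, map_mul, map_intCast, map_pow, sg_zt,
      ← pow_val_mul (zt_spec d K).pow_eq_one, ← Units.val_mul, inv_mul_cancel_left]
  rw [h2] at h1
  have h3 := coeff_extract (K := K) (fun x => c (b * x)) h1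
  simpa using h3

end

end Pool.Agent.H25.NW
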