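import Pool.Agent.H26.NL.Main

/-!
# A Wieferich type criterion for the prime-power Nagell-Ljunggren equation

Let `l^a` divide `k`. The normalised Jacobi sum `x = J(chi, chi)` satisfies
`x^k = prod_{t < d/2} (1 - zeta^{1/t} q)`, an `l^a`-th power. Comparing this product with its
complex conjugate modulo `l^(a+1)` gives `l^(a+1) | q - 1`, unless `l | d - 1`.
-/

set_option autoImplicit false

namespace Pool.Agent.H25.NW

open NumberField Polynomial Pool.Agent.H26.NL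

noncomputable section

section general

lemma prod_dvd_sub {R ι : Type*} [CommRing R] (s : Finset ι) (a b : ι → R) (c : R)
    (h : ∀ t ∈ s, c ∣ a t - b t) : c ∣ ∏ t ∈ s, a t - ∏ t ∈ s, b t := by
  classical
  induction s using Finset.induction_on with
  | empty => simp
  | insert x s hx ih =>
    rw [Finset.prod_insert hx, Finset.prod_insert hx]
    have h1 := h x (Finset.mem_insert_self x s)
    have h2 := ih fun t ht => h t (Finset.mem_insert_of_mem ht)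
    have h3 : a x * ∏ t ∈ s, a t - b x * ∏ t ∈ s, b t
        = (a x - b x) * ∏ t ∈ s, a t + b x * (∏ t ∈ s, a t - ∏ t ∈ s, b t) := by ring
    rw [h3]
    exact dvd_add (dvd_mul_of_dvd_left h1 _) (dvd_mul_of_dvd_right h2 _)

lemma prod_add_mul {R ι : Type*} [CommRing R] [DecidableEq ι] (s : Finset ι) (a b : ι → R)
    (Q : R) : Q ^ 2 ∣ ∏ t ∈ s, (a t + Q * b t)
      - (∏ t ∈ s, a t + Q * ∑ t ∈ s, b t * ∏ u ∈ s.erase t, a u) := by
  induction s using Finset.induction_on with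
  | empty => simp
  | insert x s hx ih =>
    obtain ⟨y, hy⟩ := ih
    have h1 : ∏ t ∈ s, (a t + Q * b t)
        = ∏ t ∈ s, a t + Q * ∑ t ∈ s, b t * ∏ u ∈ s.erase t, a u + Q ^ 2 * y := by
      linear_combination hy
    have h2 : ∑ t ∈ insert x s, b t * ∏ u ∈ (insert x s).erase t, a u
        = b x * ∏ u ∈ s, a u + a x * ∑ t ∈ s, b t * ∏ u ∈ s.erase t, a u := by
      rw [Finset.sum_insert hx, Finset.erase_insert hx, Finset.mul_sum]
      congr 1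
      refine Finset.sum_congr rfl fun t ht => ?_
      have hxt : x ≠ t := fun h => hx (h ▸ ht)
      rw [Finset.erase_insert_of_ne hxt, Finset.prod_insert]
      · ring
      · intro h
        exact hx (Finset.mem_of_mem_erase h)
    rw [Finset.prod_insert hx, Finset.prod_insert hx, h1, h2]
    refine ⟨a x * y + b x * ∑ t ∈ s, b t * ∏ u ∈ s.erase t, a u + Q * b x * y, ?_⟩
    ring

end general

variable {d : ℕ} [hd : Fact d.Prime] {K : Type} [Field K] [NumberField K]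
  [IsCyclotomicExtension {d} ℚ K]

/-- Iterated Frobenius. -/
lemma frob_iter (l : ℕ) (hl : l.Prime) (ρ : (ZMod d)ˣ) (hρ : (ρ : ZMod d) = (l : ZMod d))
    (x : 𝓞 K) (a : ℕ) : (l : 𝓞 K) ∣ x ^ l ^ a - sg (ρ ^ a) x := by
  induction a with
  | zero => rw [pow_zero, pow_zero, pow_one, sg_one, sub_self]; exact dvd_zero _
  | succ a ih =>
    have h1 : (l : 𝓞 K) ∣ (x ^ l ^ a) ^ l - (sg (ρ ^ a) x) ^ l :=
      ih.trans (sub_dvd_pow_sub_pow _ _ _)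
    have h2 := frob_sg l hl ρ hρ (sg (ρ ^ a) x)
    have h3 := dvd_add h1 h2
    rw [pow_succ, pow_mul, pow_succ', sg_mul]
    simpa using h3

/-- The basic congruence for `l^a`-th powers. -/
lemma pow_cong (l : ℕ) (hl : l.Prime) (ρ : (ZMod d)ˣ) (hρ : (ρ : ZMod d) = (l : ZMod d))
    (v : 𝓞 K) (a : ℕ) :
    (l : 𝓞 K) ^ (a + 1) ∣ (sg (ρ ^ a)⁻¹ (v ^ l ^ a)) ^ l ^ a - v ^ l ^ a := by
  have h1 := map_dvd (sg (K := K) (ρ ^ a)⁻¹) (frob_iter l hl ρ hρ v a)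
  rw [map_natCast, map_sub, ← sg_mul, inv_mul_cancel, sg_one] at h1
  exact dvd_sub_pow_of_dvd_sub h1 a

/-- The root of unity `zeta^{1/t}`. -/
def Zt (d : ℕ) [Fact d.Prime] (K : Type) [Field K] [NumberField K]
    [IsCyclotomicExtension {d} ℚ K] (t : (ZMod d)ˣ) : 𝓞 K :=
  zt d K ^ ((t⁻¹ : (ZMod d)ˣ) : ZMod d).val

lemma Zt_pow (t : (ZMod d)ˣ) : Zt d K t ^ d = 1 := zt_pow_pow _

/-- The conjugate factor. -/
def Bt (d : ℕ) [Fact d.Prime] (K : Type) [Field K] [NumberField K]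
    [IsCyclotomicExtension {d} ℚ K] (q : ℕ) (t : (ZMod d)ˣ) : 𝓞 K :=
  sg (-1 : (ZMod d)ˣ) (sg t⁻¹ (PP d K q))

lemma ZB (q : ℕ) (t : (ZMod d)ˣ) : Zt d K t * Bt d K q t = Zt d K t - q := by
  have h1 : (-1 : (ZMod d)ˣ) * t⁻¹ = -(t⁻¹) := by simp
  have h2 := zt_pow_neg (K := K) t⁻¹
  rw [Bt, ← sg_mul, h1, sg_PP, Zt]
  linear_combination (-(q : 𝓞 K)) * h2

lemma A_eq (q : ℕ) (t : (ZMod d)ˣ) : sg t⁻¹ (PP d K q)
    = -Zt d K t * Bt d K q t + ((q : 𝓞 K) - 1) * (-(1 + Zt d K t)) := by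
  have h := ZB (K := K) q t
  have h1 : sg t⁻¹ (PP d K q) = 1 - Zt d K t * q := by rw [sg_PP, Zt]
  rw [h1]
  linear_combination h

lemma root_fix (l : ℕ) (hodd : Odd l) (ρ : (ZMod d)ˣ)
    (hρ : (ρ : ZMod d) = (l : ZMod d)) (a : ℕ) {z : 𝓞 K} (hz : z ^ d = 1) :
    (sg (ρ ^ a)⁻¹ (-z)) ^ l ^ a = -z := by
  have h1 : Odd (l ^ a) := hodd.pow
  rw [map_neg, h1.neg_pow]
  congr 1
  have h2 : (sg (K := K) (ρ ^ a)⁻¹ z) ^ d = 1 := by rw [← map_pow, hz, map_one]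
  have h3 : ((ρ ^ a : (ZMod d)ˣ) : ZMod d) = ((l ^ a : ℕ) : ZMod d) := by
    rw [Units.val_pow_eq_pow_val, hρ]; push_cast; rfl
  have h4 := sg_root (K := K) (ρ ^ a) h2
  rw [← sg_mul, mul_inv_cancel, sg_one, h3, pow_val_eq h2] at h4
  exact h4.symm

/-- The product of the roots of unity. -/
def ep (K : Type) [Field K] [NumberField K]
    [IsCyclotomicExtension {d} ℚ K] (A : Finset (ZMod d)ˣ) : 𝓞 K := ∏ t ∈ A, -Zt d K t

lemma ep_fix (l : ℕ) (hodd : Odd l) (ρ : (ZMod d)ˣ)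
    (hρ : (ρ : ZMod d) = (l : ZMod d)) (a : ℕ) (A : Finset (ZMod d)ˣ) :
    (sg (ρ ^ a)⁻¹ (ep K A)) ^ l ^ a = ep K A := by
  rw [ep, map_prod, ← Finset.prod_pow]
  exact Finset.prod_congr rfl fun t _ => root_fix l hodd ρ hρ a (Zt_pow t)

/-- The first congruence: `u = ep * conj u` modulo `l^(a+1)`. -/
lemma cong_one {l a q : ℕ} (hl : l.Prime) (hodd : Odd l) (ρ : (ZMod d)ˣ)
    (hρ : (ρ : ZMod d) = (l : ZMod d)) (A : Finset (ZMod d)ˣ) (v : 𝓞 K)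
    (hv : v ^ l ^ a = ∏ t ∈ A, sg t⁻¹ (PP d K q)) (hq : (l : 𝓞 K) ∣ (q : 𝓞 K) - 1) :
    (l : 𝓞 K) ^ (a + 1) ∣ (∏ t ∈ A, sg t⁻¹ (PP d K q)) - ep K A * ∏ t ∈ A, Bt d K q t := by
  set u := ∏ t ∈ A, sg t⁻¹ (PP d K q) with hu
  set u' := ∏ t ∈ A, Bt d K q t with hu'
  have h1 : (l : 𝓞 K) ^ (a + 1) ∣ (sg (ρ ^ a)⁻¹ u) ^ l ^ a - u := by
    have := pow_cong (K := K) l hl ρ hρ v a
    rwa [hv] at this
  have hv' : (sg (-1 : (ZMod d)ˣ) v) ^ l ^ a = u' := by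
    rw [← map_pow, hv, hu, hu', map_prod]
    rfl
  have h2 : (l : 𝓞 K) ^ (a + 1) ∣ (sg (ρ ^ a)⁻¹ u') ^ l ^ a - u' := by
    have := pow_cong (K := K) l hl ρ hρ (sg (-1 : (ZMod d)ˣ) v) a
    rwa [hv'] at this
  have h3 : (l : 𝓞 K) ∣ u - ep K A * u' := by
    rw [hu, hu', ep, ← Finset.prod_mul_distrib]
    apply prod_dvd_sub
    intro t _
    rw [A_eq]
    have h4 : -Zt d K t * Bt d K q t + ((q : 𝓞 K) - 1) * (-(1 + Zt d K t))
        - -Zt d K t * Bt d K q t = ((q : 𝓞 K) - 1) * (-(1 + Zt d K t)) := by ring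
    rw [h4]
    exact dvd_mul_of_dvd_left hq _
  have h4 := map_dvd (sg (K := K) (ρ ^ a)⁻¹) h3
  rw [map_natCast, map_sub, map_mul] at h4
  have h5 := dvd_sub_pow_of_dvd_sub h4 a
  rw [mul_pow, ep_fix l hodd ρ hρ a A] at h5
  have h6 := dvd_mul_of_dvd_right h2 (ep K A)
  have h7 := dvd_add (dvd_sub h5 h1) h6
  have h8 : (sg (ρ ^ a)⁻¹ u) ^ l ^ a - ep K A * (sg (ρ ^ a)⁻¹ u') ^ l ^ a
      - ((sg (ρ ^ a)⁻¹ u) ^ l ^ a - u) + ep K A * ((sg (ρ ^ a)⁻¹ u') ^ l ^ a - u')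
      = u - ep K A * u' := by ring
  rwa [h8] at h7

/-- The obstruction. -/
def WS (K : Type) [Field K] [NumberField K]
    [IsCyclotomicExtension {d} ℚ K] (q : ℕ) (A : Finset (ZMod d)ˣ) : 𝓞 K :=
  ∑ t ∈ A, -(1 + Zt d K t) * ∏ s ∈ A.erase t, (-Zt d K s * Bt d K q s)

/-- The second congruence. -/
lemma cong_two (q : ℕ) (A : Finset (ZMod d)ˣ) :
    ((q : 𝓞 K) - 1) ^ 2 ∣ (∏ t ∈ A, sg t⁻¹ (PP d K q))
      - (ep K A * (∏ t ∈ A, Bt d K q t) + ((q : 𝓞 K) - 1) * WS K q A) := by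
  have h := prod_add_mul A (fun t => -Zt d K t * Bt d K q t) (fun t => -(1 + Zt d K t))
    ((q : 𝓞 K) - 1)
  have h1 : ∏ t ∈ A, sg t⁻¹ (PP d K q)
      = ∏ t ∈ A, (-Zt d K t * Bt d K q t + ((q : 𝓞 K) - 1) * (-(1 + Zt d K t))) :=
    Finset.prod_congr rfl fun t _ => A_eq q t
  rw [h1, ep, ← Finset.prod_mul_distrib]
  exact h

end

end Pool.Agent.H25.NW
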